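import Mathlib
import Pool.Agent.Run7.h77.RD.Defs

/-!
# RD, piece DEGB: the degrees on side B
-/

set_option autoImplicit false

namespace Run7.h463.RD

open Run7.h77.RD

theorem lex_iff {w b c x y : ℕ} (hc : c < w) (hy : y < w) :
    (b < x ∨ (b = x ∧ c ≤ y)) ↔ b * w + c ≤ x * w + y := by
  constructor
  · rintro (h | ⟨h, h'⟩)
    · have : (b + 1) * w ≤ x * w := Nat.mul_le_mul_right w h
      nlinarith
    · subst h; omega
  · intro h
    rcases lt_trichotomy b x with h1 | h1 | h1
    · exact Or.inl h1
    · subst h1; right; exact ⟨rfl, by omega⟩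
    · exfalso
      have : (x + 1) * w ≤ b * w := Nat.mul_le_mul_right w h1
      nlinarith

theorem dn_card {L w : ℕ} (b : Fin (L + 1)) (c : Fin w) :
    {x : Fin (L + 1) × Fin w | Dn x (b, c)}.ncard = (L + 1) * w - ((b : ℕ) * w + c) := by
  have hlt : (b : ℕ) * w + c < (L + 1) * w := by
    have h1 := b.isLt
    have h2 := c.isLt
    have : ((b : ℕ) + 1) * w ≤ (L + 1) * w := Nat.mul_le_mul_right w h1
    nlinarith
  have hset : {x : Fin (L + 1) × Fin w | Dn x (b, c)} =
      finProdFinEquiv.symm '' (Finset.Ici (⟨(b : ℕ) * w + c, hlt⟩ : Fin ((L + 1) * w)) : Set _) := by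
    ext x
    rw [Equiv.image_symm_eq_preimage]
    simp only [Set.mem_ofPred_eq, Set.mem_preimage, Finset.coe_Ici, Set.mem_Ici, Fin.le_def,
      finProdFinEquiv_apply_val]
    have h := lex_iff (b := b) (x := x.1) c.isLt x.2.isLt
    unfold Dn
    simp only [Fin.lt_def, Fin.le_def, Fin.ext_iff]
    rw [h]
    rw [add_comm (x.2 : ℕ), mul_comm w]
  rw [hset, Set.ncard_image_of_injective _ finProdFinEquiv.symm.injective, Set.ncard_coe_finset,
    Fin.card_Ici]

theorem ne_card {p : ℕ} (i : Fin p) : {j : Fin p | j ≠ i}.ncard = p - 1 := by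
  have : {j : Fin p | j ≠ i} = ({i} : Set (Fin p))ᶜ := by
    ext j; simp
  rw [this, Set.ncard_compl, Set.ncard_singleton, Nat.card_eq_fintype_card, Fintype.card_fin]

theorem inj_mk {p L w : ℕ} (s : Bool) (b : Fin (L + 1)) :
    Function.Injective fun y : Fin p × Fin w => ((y.1, s, b, y.2) : V p L w) := by
  rintro ⟨y1, y2⟩ ⟨z1, z2⟩ h
  simp only [Prod.mk.injEq] at h
  ext
  · simp [h.1]
  · simp [h.2.2.2]

/-- Piece DEGB. -/
theorem t_DEGB : S_DEGB := by
  intro p L w D H hL hD i b c
  have hN1 : ((fun x : Fin (L + 1) × Fin w => ((i, false, x) : V p L w)) ''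
      {x | Dn x (b, c)}).ncard = (L + 1) * w - ((b : ℕ) * w + c) := by
    rw [Set.ncard_image_of_injective _ ?_, dn_card]
    intro x y h
    simpa using h
  by_cases hb : 0 < (b : ℕ)
  · rw [if_pos hb]
    have hb' : (b : ℕ) - 1 < L + 1 := by omega
    have hset : (G p L w H).neighborSet (i, true, b, c) =
        ((fun x : Fin (L + 1) × Fin w => ((i, false, x) : V p L w)) '' {x | Dn x (b, c)}) ∪
        (((fun y : Fin p × Fin w => ((y.1, true, b, y.2) : V p L w)) ''
          ({j | j ≠ i} ×ˢ H.neighborSet c)) ∪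
        ((fun y : Fin p × Fin w => ((y.1, false, (⟨(b : ℕ) - 1, hb'⟩ : Fin (L + 1)), y.2) : V p L w)) ''
          ({j | j ≠ i} ×ˢ H.neighborSet c))) := by
      ext v
      obtain ⟨j, s, b', c'⟩ := v
      rw [SimpleGraph.mem_neighborSet]
      simp only [G, E1, E2, Set.mem_union, Set.mem_image, Set.mem_ofPred_eq, Set.mem_prod,
        SimpleGraph.mem_neighborSet, Prod.exists, Prod.mk.injEq]
      constructor
      · rintro (h | h | h)
        · simp at h
        · obtain ⟨h1, -, h | h⟩ := h
          · left
            exact ⟨b', c', h.2, h.1.symm, h1.symm, rfl, rfl⟩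
          · exfalso
            have := h.2.2
            rw [this] at hb
            simp at hb
        · obtain ⟨h1, h2, h3, h4, h5⟩ := h
          right
          cases s
          · right
            refine ⟨j, c', ⟨fun e => h1 e.symm, h5⟩, rfl, rfl, ?_, rfl⟩
            simp only [bid] at h2
            rw [Fin.ext_iff]
            simp at h2 ⊢
            omega
          · left
            refine ⟨j, c', ⟨fun e => h1 e.symm, h5⟩, rfl, rfl, ?_, rfl⟩
            simp only [bid] at h2
            rw [Fin.ext_iff]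
            simpa using h2
      · rintro (h | h | h)
        · obtain ⟨x, y, h1, h2, h3, h4, h5⟩ := h
          subst h4 h5
          right; left
          exact ⟨h3.symm, by simp, Or.inl ⟨h2.symm, h1⟩⟩
        · obtain ⟨x, y, h1, h2, h3, h4, h5⟩ := h
          subst h2 h3 h4 h5
          right; right
          refine ⟨fun e => h1.1 e.symm, by simp [bid], ?_, ?_, h1.2⟩
          · simp [bid]; omega
          · simp [bid]; have := b.isLt; omega
        · obtain ⟨x, y, h1, h2, h3, h4, h5⟩ := h
          subst h2 h3 h4 h5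
          right; right
          refine ⟨fun e => h1.1 e.symm, ?_, ?_, ?_, h1.2⟩
          · simp [bid]; omega
          · simp [bid]; omega
          · simp [bid]; have := b.isLt; omega
    rw [hset, Set.ncard_union_eq, Set.ncard_union_eq, hN1, Set.ncard_image_of_injective _ (inj_mk _ _),
      Set.ncard_image_of_injective _ (inj_mk _ _), Set.ncard_prod, ne_card, hD]
    · ring
    · rw [Set.disjoint_left]
      rintro v ⟨x, hx, rfl⟩ ⟨y, hy, h⟩
      simp at h
    · rw [Set.disjoint_left]
      rintro v ⟨x, hx, rfl⟩ h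
      rcases h with ⟨y, hy, h⟩ | ⟨y, hy, h⟩
      · simp at h
      · simp only [Prod.mk.injEq] at h
        exact hy.1 h.1
  · rw [if_neg hb]
    have hb0 : b = 0 := by
      apply Fin.ext
      rw [Fin.val_zero]
      omega
    subst hb0
    have hset : (G p L w H).neighborSet (i, true, (0 : Fin (L + 1)), c) =
        ((fun x : Fin (L + 1) × Fin w => ((i, false, x) : V p L w)) '' {x | Dn x (0, c)}) ∪
        ((fun y : Fin p × Fin w => ((y.1, false, Fin.last L, y.2) : V p L w)) ''
          ({j | j ≠ i} ×ˢ (Set.univ : Set (Fin w)))) := by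
      ext v
      obtain ⟨j, s, b', c'⟩ := v
      rw [SimpleGraph.mem_neighborSet]
      simp only [G, E1, E2, Set.mem_union, Set.mem_image, Set.mem_ofPred_eq, Set.mem_prod,
        Set.mem_univ, Prod.exists, Prod.mk.injEq]
      constructor
      · rintro (h | h | h)
        · simp at h
        · obtain ⟨h1, -, h | h⟩ := h
          · left
            exact ⟨b', c', h.2, h.1.symm, h1.symm, rfl, rfl⟩
          · right
            exact ⟨j, c', ⟨h.1, trivial⟩, rfl, h1.symm, h.2.1.symm, rfl⟩
        · exfalso
          obtain ⟨h1, h2, h3, h4, h5⟩ := h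
          simp [bid] at h3
      · rintro (h | h)
        · obtain ⟨x, y, h1, h2, h3, h4, h5⟩ := h
          subst h4 h5
          right; left
          exact ⟨h3.symm, by simp, Or.inl ⟨h2.symm, h1⟩⟩
        · obtain ⟨x, y, h1, h2, h3, h4, h5⟩ := h
          subst h2 h3 h4 h5
          right; left
          exact ⟨rfl, by simp, Or.inr ⟨h1.1, by simp⟩⟩
    rw [hset, Set.ncard_union_eq, hN1, Set.ncard_image_of_injective _ (inj_mk _ _),
      Set.ncard_prod, ne_card, Set.ncard_univ, Nat.card_eq_fintype_card, Fintype.card_fin]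
    · rw [Set.disjoint_left]
      rintro v ⟨x, hx, rfl⟩ ⟨y, hy, h⟩
      simp only [Prod.mk.injEq] at h
      exact hy.1 h.1

end Run7.h463.RD
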